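import Pool.Agent.Q8.GF.Fin9

/-!
Artinian complete intersections of products of linear forms: all maps `ℓ ^ k : A_i → A_{i+k}` from
degree at most one, or to degree at least `σ - 1`, have maximal rank, in at most five variables for
all degrees, and in any number of variables for a common degree or nearly equal degrees.
-/

open MvPolynomial

namespace Pool.Agent.Results.MP_53b7aa_ag.FromDegreeOne

/-- Let `K` be a field of characteristic zero and `f_i = ∏_j l_ij` (`0 ≤ i ≤ n + 1`) products of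
`e_i` linear forms in `n + 2` variables, `2 ≤ e_0 ≤ … ≤ e_{n+1}`, such that `f_0, …, f_{n+1}` is a
regular sequence. Let `A = K[x_0, …, x_{n+1}] / (f_0, …, f_{n+1})` and `σ = ∑ (e_j - 1)`. Assume
`n ≤ 3` (at most five variables), or that for each `1 ≤ k ≤ n - 1` one of the following holds:

* `k (e_n - 1) ≤ (e_0 - 1) + … + (e_k - 1)` (so for all `k` if all degrees are equal);
* `k = n - 1` and `n (e_{n-1} - 1) + (e_1 - 1) ≤ σ`.

Then there is a linear form `L` such that all maps `L ^ k : A_i → A_{i+k}` with `i ≤ 1` or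
`i + k ≥ σ - 1` are injective or surjective. -/
theorem result (K : Type*) [Field K] [CharZero K] (n : ℕ)
    (f : Fin (n + 2) → MvPolynomial (Fin (n + 2)) K) (e : Fin (n + 2) → ℕ)
    (l : (i : Fin (n + 2)) → Fin (e i) → MvPolynomial (Fin (n + 2)) K)
    (hl : ∀ i j, (l i j).IsHomogeneous 1) (hf : ∀ i, f i = ∏ j, l i j)
    (he : ∀ i, 2 ≤ e i) (hmono : Monotone e)
    (hreg : RingTheory.Sequence.IsRegular (MvPolynomial (Fin (n + 2)) K) (List.ofFn f))
    (h : ∀ k (_ : 1 ≤ k) (_ : k + 1 ≤ n),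
      k * (e (Fin.last n).castSucc - 1) ≤
        ∑ i ∈ Finset.univ.filter (fun i : Fin (n + 2) => (i : ℕ) ≤ k), (e i - 1) ∨
      (k + 1 = n ∧ n * (e ⟨k, by omega⟩ - 1) + (e 1 - 1) ≤ ∑ j, (e j - 1)) ∨ n ≤ 3) :
    ∃ L : MvPolynomial (Fin (n + 2)) K, L.IsHomogeneous 1 ∧ ∀ i k : ℕ,
      (i ≤ 1 ∨ ∑ j, (e j - 1) ≤ i + k + 1) →
        (∀ g ∈ homogeneousSubmodule (Fin (n + 2)) K i,
          L ^ k * g ∈ Ideal.span (Set.range f) → g ∈ Ideal.span (Set.range f)) ∨
        (∀ h ∈ homogeneousSubmodule (Fin (n + 2)) K (i + k),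
          ∃ g ∈ homogeneousSubmodule (Fin (n + 2)) K i,
            h - L ^ k * g ∈ Ideal.span (Set.range f)) := by
  have hfh : ∀ i, (f i).IsHomogeneous (e i) := by
    intro i
    rw [hf i]
    have := IsHomogeneous.prod Finset.univ (l i) (fun _ => 1) (fun j _ => hl i j)
    simpa using this
  refine Pool.Agent.Q8.GF.main9 hfh he
    (H503R3.QCI.reg_of_isWeaklyRegular hreg.toIsWeaklyRegular) hmono fun k hk1 hk2 => ?_
  rcases h k hk1 hk2 with h1 | h1 | h1
  · exact Or.inl h1
  · exact Or.inr (Or.inr (Or.inl h1))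
  · exact Or.inr (Or.inr (Or.inr h1))

end Pool.Agent.Results.MP_53b7aa_ag.FromDegreeOne
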